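import Mathlib

/-!
MP_76001c_al: building blocks.
* `Separates` : Abert's separation condition.
* `exists_far` : orbits of pointwise stabilizers of finite sets are infinite.
* `mixed` : a mixed word whose image after killing the constants is nontrivial is not a
  mixed identity of a group with a separating action.
-/

namespace Pool.Agent.MP76001c

open Finset
open scoped Pointwise

universe u v

/-- A group `G` acting on a set `X` separates `X` if for every finite `Y ⊆ X` and every point
`x ∉ Y` some element of `G` fixes `Y` pointwise and moves `x`. -/
def Separates (G : Type u) (X : Type v) [Group G] [MulAction G X] : Prop :=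
  ∀ (Y : Finset X) (x : X), x ∉ Y → ∃ g : G, (∀ y ∈ Y, g • y = y) ∧ g • x ≠ x

theorem exists_far {G : Type u} {X : Type v} [Group G] [MulAction G X]
    (hsep : Separates G X) (Y B : Finset X) (x : X) (hx : x ∉ Y) :
    ∃ h : G, (∀ y ∈ Y, h • y = y) ∧ h • x ∉ B := by
  classical
  by_contra hcon
  push Not at hcon
  let Y' : Finset X := Y ∪ B.filter (fun b => b ≠ x ∧ ∃ h : G, (∀ y ∈ Y, h • y = y) ∧ h • x = b)
  have hxY' : x ∉ Y' := by
    simp only [Y', Finset.mem_union, Finset.mem_filter, not_or]
    exact ⟨hx, fun h => h.2.1 rfl⟩
  obtain ⟨g, hg1, hg2⟩ := hsep Y' x hxY'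
  have hgY : ∀ y ∈ Y, g • y = y := fun y hy => hg1 y (Finset.mem_union_left _ hy)
  have hgB : g • x ∈ B := hcon g hgY
  have hgY' : g • x ∈ Y' := by
    refine Finset.mem_union_right _ (Finset.mem_filter.2 ⟨hgB, hg2, g, hgY, rfl⟩)
  have := hg1 _ hgY'
  exact hg2 (MulAction.injective g this)

section Mixed

variable {G : Type u} {X : Type v} [Group G] [MulAction G X] {ι κ : Type} {Q : Type} [Group Q]

/-- value of a signed letter -/
def sv {H : Type*} [Group H] (h : H) (b : Bool) : H := if b then h else h⁻¹

/-- value of a list of signed letters -/
def ev {γ : Type*} {H : Type*} [Group H] (f : γ → H) : List (γ × Bool) → H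
  | [] => 1
  | (a, b) :: L => sv (f a) b * ev f L

theorem ev_eq {γ : Type*} {H : Type*} [Group H] (f : γ → H) (L : List (γ × Bool)) :
    ev f L = FreeGroup.lift f (FreeGroup.mk L) := by
  induction L with
  | nil => simp [ev]
  | cons a L ih =>
    obtain ⟨a, b⟩ := a
    rw [ev, ih, FreeGroup.lift_mk, FreeGroup.lift_mk]
    cases b <;> simp [sv]

/-- `g` respects the finite set of edges `E`. -/
def Resp (g : ι → G) (E : Finset (X × ι × X)) : Prop := ∀ e ∈ E, g e.2.1 • e.1 = e.2.2

/-- Main building lemma. `C` is a finite set of constants containing `1`. -/
theorem build (hsep : Separates G X) [DecidableEq G] [DecidableEq X] [DecidableEq ι]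
    (s : κ → G) (C : Finset G) (h1 : (1 : G) ∈ C) (hC : ∀ k b, sv (s k) b ∈ C)
    (xq : ι → Q) (p : X) (L : List ((ι ⊕ κ) × Bool)) :
    ∀ n : ℕ, ∃ (g : ι → G) (E : Finset (X × ι × X)) (R : Finset X) (lam : X → Q) (q : X),
      Resp g E ∧
      (∀ g' : ι → G, Resp g' E → ev (Sum.elim g' s) L • p = q) ∧
      (∀ e ∈ E, lam e.2.2 = xq e.2.1 * lam e.1) ∧
      (∀ a : X, (a = p ∨ a = q ∨ (∃ e ∈ E, a = e.1 ∨ a = e.2.2)) →
        ∀ d ∈ C ^ n, d • a ∈ R ∧ lam (d • a) = lam a) ∧
      lam q = ev (Sum.elim xq (fun _ => (1 : Q))) L ∧ lam p = 1 := by
  induction L with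
  | nil =>
    intro n
    refine ⟨fun _ => 1, ∅, (C ^ n).image (fun d => d • p), fun _ => 1, p, ?_, ?_, ?_, ?_, ?_, rfl⟩
    · intro e he
      simp at he
    · intro g' _
      simp [ev]
    · intro e he
      simp at he
    · intro a ha d hd
      have : a = p := by
        rcases ha with h | h | ⟨e, he, _⟩
        · exact h
        · exact h
        · simp at he
      subst this
      exact ⟨Finset.mem_image_of_mem _ hd, rfl⟩
    · simp [ev]
  | cons l L ih =>
    intro n
    obtain ⟨l, b⟩ := l
    obtain ⟨g, E, R, lam, q, hg, hev, hE, hlive, hlq, hlp⟩ := ih (n + 1)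
    have hmono : ∀ d ∈ C ^ n, d ∈ C ^ (n + 1) := by
      intro d hd
      rw [pow_succ]
      have := Finset.mul_mem_mul hd h1
      rwa [mul_one] at this
    have hone : ∀ m : ℕ, (1 : G) ∈ C ^ m := by
      intro m
      exact Finset.one_mem_pow h1 
    have hinR : ∀ a : X, (a = p ∨ a = q ∨ (∃ e ∈ E, a = e.1 ∨ a = e.2.2)) → a ∈ R := by
      intro a ha
      have := (hlive a ha 1 (hone _)).1
      rwa [one_smul] at this
    rcases l with j | k
    · -- variable step
      cases b with
      | true =>
        by_cases hex : ∃ r, (q, j, r) ∈ E
        · obtain ⟨r, hr⟩ := hex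
          refine ⟨g, E, R, lam, r, hg, ?_, hE, ?_, ?_, hlp⟩
          · intro g' hg'
            rw [ev, mul_smul, hev g' hg']
            exact hg' _ hr
          · intro a ha d hd
            refine hlive a ?_ d (hmono d hd)
            rcases ha with h | h | h
            · exact Or.inl h
            · exact Or.inr (Or.inr ⟨_, hr, Or.inr h⟩)
            · exact Or.inr (Or.inr h)
          · rw [ev, ← hlq]
            exact hE _ hr
        · push Not at hex
          let Y : Finset X := (E.filter (fun e => e.2.1 = j)).image (fun e => e.2.2)
          let Bad : Finset X := ((C ^ n) ×ˢ R).image (fun t => t.1⁻¹ • t.2)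
          have hr0 : g j • q ∉ Y := by
            intro h
            obtain ⟨e, he, he2⟩ := Finset.mem_image.1 h
            obtain ⟨he1, he3⟩ := Finset.mem_filter.1 he
            have h4 := hg e he1
            rw [he3, he2] at h4
            have h5 : e.1 = q := MulAction.injective (g j) h4
            apply hex e.2.2
            rw [← h5, ← he3]
            exact he1
          obtain ⟨h, hfix, hfar⟩ := exists_far hsep Y Bad _ hr0
          have hnotR : ∀ d ∈ C ^ n, d • (h • g j • q) ∉ R := by
            intro d hd hR
            apply hfar
            refine Finset.mem_image.2 ⟨(d, d • (h • g j • q)), Finset.mem_product.2 ⟨hd, hR⟩, ?_⟩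
            simp
          set r : X := h • g j • q with hrdef
          let g2 : ι → G := Function.update g j (h * g j)
          have hg2 : Resp g2 E := by
            intro e he
            by_cases hej : e.2.1 = j
            · have h4 := hg e he
              rw [hej] at h4 ⊢
              simp only [g2, Function.update_self, mul_smul, h4]
              apply hfix
              exact Finset.mem_image.2 ⟨e, Finset.mem_filter.2 ⟨he, hej⟩, rfl⟩
            · simp only [g2, Function.update_of_ne hej]
              exact hg e he
          let T : Finset X := (C ^ n).image (fun d => d • r)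
          have hTR : ∀ a ∈ T, a ∉ R := by
            intro a ha
            obtain ⟨d, hd, rfl⟩ := Finset.mem_image.1 ha
            exact hnotR d hd
          let lam2 : X → Q := fun x => if x ∈ T then xq j * lam q else lam x
          have hlR : ∀ a ∈ R, lam2 a = lam a := by
            intro a ha
            have : a ∉ T := fun h => hTR a h ha
            simp [lam2, this]
          have hlT : ∀ a ∈ T, lam2 a = xq j * lam q := by
            intro a ha
            simp [lam2, ha]
          have hrT : r ∈ T := Finset.mem_image.2 ⟨1, hone n, one_smul _ _⟩
          refine ⟨g2, insert (q, j, r) E, R ∪ T, lam2, r, ?_, ?_, ?_, ?_, ?_, ?_⟩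
          · intro e he
            rcases Finset.mem_insert.1 he with h | h
            · subst h
              simp [g2, mul_smul, hrdef]
            · exact hg2 e h
          · intro g' hg'
            rw [ev, mul_smul, hev g' (fun e he => hg' e (Finset.mem_insert_of_mem he))]
            exact hg' _ (Finset.mem_insert_self _ _)
          · intro e he
            rcases Finset.mem_insert.1 he with h | h
            · subst h
              simp only
              rw [hlT r hrT, hlR q (hinR q (Or.inr (Or.inl rfl)))]
            · rw [hlR _ (hinR _ (Or.inr (Or.inr ⟨e, h, Or.inr rfl⟩))),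
                hlR _ (hinR _ (Or.inr (Or.inr ⟨e, h, Or.inl rfl⟩)))]
              exact hE e h
          · intro a ha d hd
            have key : a = r ∨ (a = p ∨ a = q ∨ (∃ e ∈ E, a = e.1 ∨ a = e.2.2)) := by
              rcases ha with h | h | ⟨e, he, h⟩
              · exact Or.inr (Or.inl h)
              · exact Or.inl h
              · rcases Finset.mem_insert.1 he with h' | h'
                · subst h'
                  rcases h with h | h
                  · exact Or.inr (Or.inr (Or.inl h))
                  · exact Or.inl h
                · exact Or.inr (Or.inr (Or.inr ⟨e, h', h⟩))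
            rcases key with h | h
            · subst h
              have hdT : d • r ∈ T := Finset.mem_image.2 ⟨d, hd, rfl⟩
              exact ⟨Finset.mem_union_right _ hdT, by rw [hlT _ hdT, hlT _ hrT]⟩
            · obtain ⟨h3, h4⟩ := hlive a h d (hmono d hd)
              refine ⟨Finset.mem_union_left _ h3, ?_⟩
              rw [hlR _ h3, hlR _ (hinR a h), h4]
          · rw [hlT r hrT, hlq, ev]
            rfl
          · rw [hlR _ (hinR p (Or.inl rfl)), hlp]
      | false =>
        by_cases hex : ∃ r, (r, j, q) ∈ E
        · obtain ⟨r, hr⟩ := hex
          refine ⟨g, E, R, lam, r, hg, ?_, hE, ?_, ?_, hlp⟩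
          · intro g' hg'
            rw [ev, mul_smul, hev g' hg']
            have := hg' _ hr
            simp only at this
            simp only [sv, Sum.elim_inl, Bool.false_eq_true, if_false]
            rw [← this, inv_smul_smul]
          · intro a ha d hd
            refine hlive a ?_ d (hmono d hd)
            rcases ha with h | h | h
            · exact Or.inl h
            · exact Or.inr (Or.inr ⟨_, hr, Or.inl h⟩)
            · exact Or.inr (Or.inr h)
          · rw [ev, ← hlq]
            have := hE _ hr
            simp only at this
            simp only [sv, Sum.elim_inl, Bool.false_eq_true, if_false]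
            rw [this, inv_mul_cancel_left]
        · push Not at hex
          let Y : Finset X := (E.filter (fun e => e.2.1 = j)).image (fun e => e.1)
          let Bad : Finset X := ((C ^ n) ×ˢ R).image (fun t => t.1⁻¹ • t.2)
          have hr0 : (g j)⁻¹ • q ∉ Y := by
            intro h
            obtain ⟨e, he, he2⟩ := Finset.mem_image.1 h
            obtain ⟨he1, he3⟩ := Finset.mem_filter.1 he
            have h4 := hg e he1
            rw [he3, he2, smul_inv_smul] at h4
            apply hex e.1
            rw [h4, ← he3]
            exact he1
          obtain ⟨h, hfix, hfar⟩ := exists_far hsep Y Bad _ hr0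
          have hnotR : ∀ d ∈ C ^ n, d • (h • (g j)⁻¹ • q) ∉ R := by
            intro d hd hR
            apply hfar
            refine Finset.mem_image.2 ⟨(d, d • (h • (g j)⁻¹ • q)),
              Finset.mem_product.2 ⟨hd, hR⟩, ?_⟩
            simp
          set r : X := h • (g j)⁻¹ • q with hrdef
          let g2 : ι → G := Function.update g j (g j * h⁻¹)
          have hg2 : Resp g2 E := by
            intro e he
            by_cases hej : e.2.1 = j
            · have h4 := hg e he
              rw [hej] at h4 ⊢
              have h5 : h • e.1 = e.1 := by
                apply hfix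
                exact Finset.mem_image.2 ⟨e, Finset.mem_filter.2 ⟨he, hej⟩, rfl⟩
              have h6 : h⁻¹ • e.1 = e.1 := by
                rw [inv_smul_eq_iff, h5]
              simp only [g2, Function.update_self, mul_smul, h6, h4]
            · simp only [g2, Function.update_of_ne hej]
              exact hg e he
          let T : Finset X := (C ^ n).image (fun d => d • r)
          have hTR : ∀ a ∈ T, a ∉ R := by
            intro a ha
            obtain ⟨d, hd, rfl⟩ := Finset.mem_image.1 ha
            exact hnotR d hd
          let lam2 : X → Q := fun x => if x ∈ T then (xq j)⁻¹ * lam q else lam x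
          have hlR : ∀ a ∈ R, lam2 a = lam a := by
            intro a ha
            have : a ∉ T := fun h => hTR a h ha
            simp [lam2, this]
          have hlT : ∀ a ∈ T, lam2 a = (xq j)⁻¹ * lam q := by
            intro a ha
            simp [lam2, ha]
          have hrT : r ∈ T := Finset.mem_image.2 ⟨1, hone n, one_smul _ _⟩
          refine ⟨g2, insert (r, j, q) E, R ∪ T, lam2, r, ?_, ?_, ?_, ?_, ?_, ?_⟩
          · intro e he
            rcases Finset.mem_insert.1 he with h | h
            · subst h
              simp [g2, mul_smul, hrdef]
            · exact hg2 e h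
          · intro g' hg'
            rw [ev, mul_smul, hev g' (fun e he => hg' e (Finset.mem_insert_of_mem he))]
            have := hg' _ (Finset.mem_insert_self _ _)
            simp only at this
            simp only [sv, Sum.elim_inl, Bool.false_eq_true, if_false]
            rw [← this, inv_smul_smul]
          · intro e he
            rcases Finset.mem_insert.1 he with h | h
            · subst h
              simp only
              rw [hlT r hrT, hlR q (hinR q (Or.inr (Or.inl rfl))), mul_inv_cancel_left]
            · rw [hlR _ (hinR _ (Or.inr (Or.inr ⟨e, h, Or.inr rfl⟩))),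
                hlR _ (hinR _ (Or.inr (Or.inr ⟨e, h, Or.inl rfl⟩)))]
              exact hE e h
          · intro a ha d hd
            have key : a = r ∨ (a = p ∨ a = q ∨ (∃ e ∈ E, a = e.1 ∨ a = e.2.2)) := by
              rcases ha with h | h | ⟨e, he, h⟩
              · exact Or.inr (Or.inl h)
              · exact Or.inl h
              · rcases Finset.mem_insert.1 he with h' | h'
                · subst h'
                  rcases h with h | h
                  · exact Or.inl h
                  · exact Or.inr (Or.inr (Or.inl h))
                · exact Or.inr (Or.inr (Or.inr ⟨e, h', h⟩))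
            rcases key with h | h
            · subst h
              have hdT : d • r ∈ T := Finset.mem_image.2 ⟨d, hd, rfl⟩
              exact ⟨Finset.mem_union_right _ hdT, by rw [hlT _ hdT, hlT _ hrT]⟩
            · obtain ⟨h3, h4⟩ := hlive a h d (hmono d hd)
              refine ⟨Finset.mem_union_left _ h3, ?_⟩
              rw [hlR _ h3, hlR _ (hinR a h), h4]
          · rw [hlT r hrT, hlq, ev]
            rfl
          · rw [hlR _ (hinR p (Or.inl rfl)), hlp]
    · -- constant step
      refine ⟨g, E, R, lam, sv (s k) b • q, hg, ?_, hE, ?_, ?_, hlp⟩
      · intro g' hg'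
        rw [ev, mul_smul, hev g' hg']
        rfl
      · intro a ha d hd
        rcases ha with h | h | h
        · exact hlive a (Or.inl h) d (hmono d hd)
        · subst h
          have h3 : d * sv (s k) b ∈ C ^ (n + 1) := by
            rw [pow_succ]
            exact Finset.mul_mem_mul hd (hC k b)
          have h4 := hlive q (Or.inr (Or.inl rfl)) _ h3
          have h6 : sv (s k) b ∈ C ^ (n + 1) := by
            rw [pow_succ]
            have := Finset.mul_mem_mul (hone n) (hC k b)
            rwa [one_mul] at this
          have h5 := hlive q (Or.inr (Or.inl rfl)) _ h6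
          rw [mul_smul] at h4
          exact ⟨h4.1, by rw [h4.2, h5.2]⟩
        · exact hlive a (Or.inr (Or.inr h)) d (hmono d hd)
      · have h6 : sv (s k) b ∈ C ^ (n + 1) := by
          rw [pow_succ]
          have := Finset.mul_mem_mul (hone n) (hC k b)
          rwa [one_mul] at this
        have h5 := hlive q (Or.inr (Or.inl rfl)) _ h6
        rw [h5.2, hlq, ev]
        cases b <;> simp [sv]

/-- A mixed word whose image (constants killed) is nontrivial in some group is not a mixed
identity of a group with a separating action. -/
theorem mixed [Nonempty X] [Finite κ] (hsep : Separates G X) (s : κ → G) (xq : ι → Q)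
    (W : FreeGroup (ι ⊕ κ))
    (hW : FreeGroup.lift (Sum.elim xq (fun _ => (1 : Q))) W ≠ 1) :
    ∃ g : ι → G, FreeGroup.lift (Sum.elim g s) W ≠ 1 := by
  classical
  have : Fintype κ := Fintype.ofFinite κ
  obtain ⟨p⟩ := (inferInstance : Nonempty X)
  let C : Finset G := insert 1 ((Finset.univ : Finset (κ × Bool)).image (fun t => sv (s t.1) t.2))
  obtain ⟨g, E, R, lam, q, hg, hev, hE, hlive, hlq, hlp⟩ := build hsep s C
    (Finset.mem_insert_self _ _) (fun k b => Finset.mem_insert_of_mem
      (Finset.mem_image.2 ⟨(k, b), Finset.mem_univ _, rfl⟩)) xq p W.toWord 0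
  refine ⟨g, fun h => hW ?_⟩
  have h1 := hev g hg
  rw [ev_eq, FreeGroup.mk_toWord, h, one_smul] at h1
  rw [ev_eq, FreeGroup.mk_toWord, ← h1, hlp] at hlq
  exact hlq.symm

end Mixed

end Pool.Agent.MP76001c
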