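import Pool.Agent.Work.MP_76001c_al.Model

/-!
MP_76001c_al: assembly.
-/

namespace Pool.Agent.MP76001c

universe u v

/-- the words used for the new generators, in `z`, `x` and the constants `s_j` -/
def mac (e N : ℕ) : Option (Fin (e + 1)) → FreeGroup (Bool ⊕ Fin e)
  | none => FreeGroup.of (Sum.inl false)
  | some i => (Fin.cases (motive := fun _ => FreeGroup (Bool ⊕ Fin e)) 1
      (fun j => FreeGroup.of (Sum.inr j)) i) *
      (FreeGroup.of (Sum.inl false) ^ ((i : ℕ) * N) * FreeGroup.of (Sum.inl true) *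
        (FreeGroup.of (Sum.inl false) ^ ((i : ℕ) * N))⁻¹)

theorem no_almost_aux {G : Type u} [Group G] {X : Type v} [MulAction G X] [Nonempty X]
    (hsep : Separates G X) (e : ℕ) (s : Fin e → G)
    (hs : Subgroup.closure (Set.range s) = ⊤) (w : FreeGroup (Fin (e + 2))) (hw : w ≠ 1) :
    ∃ t : Fin (e + 2) → G, Subgroup.closure (Set.range t) = ⊤ ∧ FreeGroup.lift t w ≠ 1 := by
  classical
  let eqv : Fin (e + 2) ≃ Option (Fin (e + 1)) := finSuccEquiv (e + 1)
  let w' : FreeGroup (Option (Fin (e + 1))) := FreeGroup.freeGroupCongr eqv w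
  have hw' : w' ≠ 1 := by
    intro h
    exact hw ((FreeGroup.freeGroupCongr eqv).map_eq_one_iff.1 h)
  let pos : Fin (e + 1) → ℤ := fun i => ((i : ℕ) : ℤ)
  have hpos : Function.Injective pos := by
    intro a b hab
    simp only [pos, Nat.cast_inj] at hab
    exact Fin.ext hab
  obtain ⟨N, P, hP⟩ := model pos hpos w' hw'
  let xq : Bool → Equiv.Perm (ℕ × ℤ) := fun b => if b then P else sh 1
  have hmac : ∀ a, FreeGroup.lift (Sum.elim xq (fun _ : Fin e => (1 : Equiv.Perm (ℕ × ℤ))))
      (mac e N a) = val pos N P a := by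
    intro a
    cases a with
    | none => simp [mac, val, xq]
    | some i =>
      have h1 : FreeGroup.lift (Sum.elim xq (fun _ : Fin e => (1 : Equiv.Perm (ℕ × ℤ))))
        (Fin.cases (motive := fun _ => FreeGroup (Bool ⊕ Fin e)) 1
          (fun j => FreeGroup.of (Sum.inr j)) i) = 1 := by
        refine Fin.cases ?_ (fun j => ?_) i
        · simp
        · simp
      simp only [mac, map_mul, h1, one_mul, map_pow, map_inv, FreeGroup.lift_apply_of,
        Sum.elim_inl, xq, val]
      simp only [Bool.false_eq_true, if_false, if_true, sh_pow, sh_inv]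
      simp [pos]
  have hW : FreeGroup.lift (Sum.elim xq (fun _ : Fin e => (1 : Equiv.Perm (ℕ × ℤ))))
      (FreeGroup.lift (mac e N) w') ≠ 1 := by
    have : (FreeGroup.lift (Sum.elim xq (fun _ : Fin e => (1 : Equiv.Perm (ℕ × ℤ))))).comp
        (FreeGroup.lift (mac e N)) = FreeGroup.lift (val pos N P) := by
      ext1 a
      simp [hmac]
    rw [← MonoidHom.comp_apply, this]
    exact hP
  obtain ⟨g, hg⟩ := mixed hsep s xq _ hW
  let t : Fin (e + 2) → G := fun j => FreeGroup.lift (Sum.elim g s) (mac e N (eqv j))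
  refine ⟨t, ?_, ?_⟩
  · rw [eq_top_iff, ← hs, Subgroup.closure_le]
    have ht : ∀ a, FreeGroup.lift (Sum.elim g s) (mac e N a) ∈
        Subgroup.closure (Set.range t) := by
      intro a
      refine Subgroup.subset_closure ⟨eqv.symm a, ?_⟩
      simp [t]
    have hz : g false ∈ Subgroup.closure (Set.range t) := by
      have := ht none
      simpa [mac] using this
    have hx : g true ∈ Subgroup.closure (Set.range t) := by
      have := ht (some 0)
      simpa [mac] using this
    rintro _ ⟨j, rfl⟩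
    have h1 := ht (some j.succ)
    simp only [mac, Fin.cases_succ, map_mul, map_pow, map_inv, FreeGroup.lift_apply_of,
      Sum.elim_inl, Sum.elim_inr] at h1
    have h2 : g false ^ (((j.succ : Fin (e + 1)) : ℕ) * N) * g true *
        (g false ^ (((j.succ : Fin (e + 1)) : ℕ) * N))⁻¹ ∈ Subgroup.closure (Set.range t) :=
      Subgroup.mul_mem _ (Subgroup.mul_mem _ (Subgroup.pow_mem _ hz _) hx)
        (Subgroup.inv_mem _ (Subgroup.pow_mem _ hz _))
    exact (Subgroup.mul_mem_cancel_right _ h2).1 h1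
  · have : FreeGroup.lift t = (FreeGroup.lift (Sum.elim g s)).comp
        ((FreeGroup.lift (mac e N)).comp (FreeGroup.freeGroupCongr eqv).toMonoidHom) := by
      ext1 a
      simp [t]
    rw [this]
    exact hg

theorem no_almost {G : Type u} [Group G] {X : Type v} [MulAction G X] [Nonempty X]
    (hsep : Separates G X) (d : ℕ) (s : Fin d → G)
    (hs : Subgroup.closure (Set.range s) = ⊤) (k : ℕ) (hk : d + 2 ≤ k)
    (w : FreeGroup (Fin k)) (hw : w ≠ 1) :
    ∃ t : Fin k → G, Subgroup.closure (Set.range t) = ⊤ ∧ FreeGroup.lift t w ≠ 1 := by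
  obtain ⟨e, rfl⟩ : ∃ e, k = e + 2 := ⟨k - 2, by omega⟩
  have hde : d ≤ e := by omega
  let s' : Fin e → G := fun i => if h : (i : ℕ) < d then s ⟨i, h⟩ else 1
  have hs' : Subgroup.closure (Set.range s') = ⊤ := by
    rw [eq_top_iff, ← hs, Subgroup.closure_le]
    rintro _ ⟨j, rfl⟩
    refine Subgroup.subset_closure ⟨⟨j, lt_of_lt_of_le j.2 hde⟩, ?_⟩
    simp [s']
  exact no_almost_aux hsep e s' hs' w hw

/-- An action by homeomorphisms is micro-supported if every nonempty open set contains the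
support of an element acting nontrivially. -/
def MicroSupported (G : Type u) (X : Type v) [Group G] [MulAction G X] [TopologicalSpace X] :
    Prop :=
  ∀ U : Set X, IsOpen U → U.Nonempty → ∃ g : G, (∀ x, x ∉ U → g • x = x) ∧ ∃ x : X, g • x ≠ x

theorem micro {G : Type u} [Group G] {X : Type v} [MulAction G X] [Nonempty X]
    [TopologicalSpace X] [T2Space X] [SecondCountableTopology X] [BaireSpace X]
    (hcont : ∀ g : G, Continuous (fun x : X => g • x)) (hmic : MicroSupported G X) :
    ∃ x₀ : X, Separates G (MulAction.orbit G x₀) := by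
  classical
  let bas := TopologicalSpace.countableBasis X
  have hbas := TopologicalSpace.isBasis_countableBasis X
  have hcount : bas.Countable := TopologicalSpace.countable_countableBasis X
  let D : Set X → Set X := fun B => interior Bᶜ ∪
    {x | ∃ g : G, (∀ y, y ∉ B → g • y = y) ∧ g • x ≠ x}
  have hDo : ∀ B ∈ bas, IsOpen (D B) := by
    intro B _
    refine isOpen_interior.union ?_
    have : {x : X | ∃ g : G, (∀ y, y ∉ B → g • y = y) ∧ g • x ≠ x} =
        ⋃ g ∈ {g : G | ∀ y, y ∉ B → g • y = y}, {x : X | g • x ≠ x} := by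
      ext x
      simp
    rw [this]
    refine isOpen_biUnion (fun g _ => ?_)
    exact isOpen_ne_fun (hcont g) continuous_id
  have hDd : ∀ B ∈ bas, Dense (D B) := by
    intro B hB
    rw [dense_iff_inter_open]
    intro V hV hVne
    by_cases hVB : (V ∩ B).Nonempty
    · obtain ⟨g, hg1, x, hx⟩ := hmic (V ∩ B) (hV.inter (hbas.isOpen hB)) hVB
      have hxVB : x ∈ V ∩ B := by
        by_contra h
        exact hx (hg1 x h)
      refine ⟨x, hxVB.1, Or.inr ⟨g, fun y hy => hg1 y (fun h => hy h.2), hx⟩⟩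
    · obtain ⟨x, hx⟩ := hVne
      refine ⟨x, hx, Or.inl ?_⟩
      rw [mem_interior]
      refine ⟨V, ?_, hV, hx⟩
      intro y hy hyB
      exact hVB ⟨y, hy, hyB⟩
  have hdense : Dense (⋂ B ∈ bas, D B) := dense_biInter_of_isOpen hDo hcount hDd
  obtain ⟨x₀, hx₀⟩ := hdense.nonempty
  have hgen : ∀ U : Set X, IsOpen U → x₀ ∈ U → ∃ g : G, (∀ y, y ∉ U → g • y = y) ∧ g • x₀ ≠ x₀ := by
    intro U hU hxU
    obtain ⟨B, hB, hxB, hBU⟩ := hbas.exists_subset_of_mem_open hxU hU
    have h1 := Set.mem_iInter₂.1 hx₀ B hB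
    rcases h1 with h1 | ⟨g, hg1, hg2⟩
    · exact absurd hxB (interior_subset h1)
    · exact ⟨g, fun y hy => hg1 y (fun h => hy (hBU h)), hg2⟩
  refine ⟨x₀, ?_⟩
  intro Y x hx
  obtain ⟨_, ⟨a, rfl⟩⟩ := x
  -- the open set
  let F : Set X := {y | ∃ z ∈ Y, (z : X) = y}
  have hF : F.Finite := by
    have : F = (fun z : MulAction.orbit G x₀ => (z : X)) '' (Y : Set (MulAction.orbit G x₀)) := by
      ext y
      simp [F]
    rw [this]
    exact (Finset.finite_toSet Y).image _
  let U : Set X := (fun y => a • y) ⁻¹' Fᶜ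
  have hU : IsOpen U := hF.isClosed.isOpen_compl.preimage (hcont a)
  have hxU : x₀ ∈ U := by
    intro h
    obtain ⟨z, hz, hz2⟩ := h
    apply hx
    convert hz
    exact hz2.symm
  obtain ⟨g, hg1, hg2⟩ := hgen U hU hxU
  refine ⟨a * g * a⁻¹, ?_, ?_⟩
  · intro y hy
    apply Subtype.ext
    rw [MulAction.orbit.coe_smul, mul_smul, mul_smul]
    rw [hg1 (a⁻¹ • (y : X)), smul_inv_smul]
    intro h
    apply h
    refine ⟨y, hy, ?_⟩
    simp
  · intro h
    have h2 := congrArg Subtype.val h
    rw [MulAction.orbit.coe_smul, mul_smul, mul_smul] at h2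
    simp only [inv_smul_smul] at h2
    exact hg2 (MulAction.injective a h2)

/-- The action of `G` on the boundary of the rooted tree with branching numbers `m` is induced
from an action by automorphisms of the rooted tree: it respects common initial segments. -/
def TreeLike (G : Type u) [Group G] (m : ℕ → ℕ) [MulAction G (∀ n, Fin (m n))] : Prop :=
  ∀ (g : G) (ξ η : ∀ n, Fin (m n)) (n : ℕ), (∀ i < n, ξ i = η i) → ∀ i < n, (g • ξ) i = (g • η) i

/-- every vertex has a nontrivial rigid stabilizer -/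
def RigidNontrivial (G : Type u) [Group G] (m : ℕ → ℕ) [MulAction G (∀ n, Fin (m n))] : Prop :=
  ∀ (ξ : ∀ n, Fin (m n)) (n : ℕ), ∃ g : G,
    (∀ η : ∀ n, Fin (m n), (∃ i < n, η i ≠ ξ i) → g • η = η) ∧ ∃ η : ∀ n, Fin (m n), g • η ≠ η

theorem tree {G : Type u} [Group G] (m : ℕ → ℕ) [MulAction G (∀ n, Fin (m n))]
    (ht : TreeLike G m) (hr : RigidNontrivial G m) :
    (∀ g : G, Continuous (fun x : (∀ n, Fin (m n)) => g • x)) ∧
      MicroSupported G (∀ n, Fin (m n)) := by
  constructor
  · intro g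
    rw [continuous_pi_iff]
    intro n
    rw [continuous_discrete_rng]
    intro b
    rw [isOpen_iff_forall_mem_open]
    intro ξ hξ
    refine ⟨{η | ∀ i ∈ Finset.range (n + 1), η i = ξ i}, ?_, ?_, ?_⟩
    · intro η hη
      have := ht g η ξ (n + 1) (fun i hi => hη i (Finset.mem_range.2 hi)) n (Nat.lt_succ_self n)
      simp only [Set.mem_preimage, Set.mem_singleton_iff] at hξ ⊢
      rw [this, hξ]
    · have : {η : ∀ n, Fin (m n) | ∀ i ∈ Finset.range (n + 1), η i = ξ i} =
          ⋂ i ∈ Finset.range (n + 1), (fun η : ∀ n, Fin (m n) => η i) ⁻¹' {ξ i} := by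
        ext η
        simp
      rw [this]
      exact isOpen_biInter_finset (fun i _ =>
        (isOpen_discrete ({ξ i} : Set (Fin (m i)))).preimage (continuous_apply i))
    · intro i _
      rfl
  · intro U hU hne
    obtain ⟨ξ, hξ⟩ := hne
    obtain ⟨I, hI⟩ : ∃ n : ℕ, {η : ∀ n, Fin (m n) | ∀ i < n, η i = ξ i} ⊆ U := by
      rw [isOpen_pi_iff] at hU
      obtain ⟨I, u, hu1, hu2⟩ := hU ξ hξ
      refine ⟨I.sup id + 1, ?_⟩
      intro η hη
      apply hu2
      intro i hi
      have h1 : i < I.sup id + 1 := Nat.lt_succ_of_le (Finset.le_sup (f := id) hi)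
      rw [hη i h1]
      exact (hu1 i hi).2
    obtain ⟨g, hg1, hg2⟩ := hr ξ I
    refine ⟨g, ?_, hg2⟩
    intro η hη
    apply hg1
    by_contra hcon
    push Not at hcon
    exact hη (hI hcon)

end Pool.Agent.MP76001c
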