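import Pool.Agent.Work.MP_76001c_al.Core

/-!
MP_76001c_al: for a nontrivial word `w` in `z` and `a_i` (`i ∈ ν`) there is `N` such that
substituting `z ^ (i N) x z ^ (- i N)` for `a_i` gives a nontrivial element (shown in the group of
permutations of `ℕ × ℤ`).
-/

namespace Pool.Agent.MP76001c

open Finset

variable {ν : Type}

/-- the shift on `ℕ × ℤ` -/
def sh (m : ℤ) : Equiv.Perm (ℕ × ℤ) := Equiv.prodCongr (Equiv.refl ℕ) (Equiv.addRight m)

theorem sh_apply (m : ℤ) (q : ℕ × ℤ) : sh m q = (q.1, q.2 + m) := rfl

theorem sh_mul (a b : ℤ) : sh a * sh b = sh (a + b) := by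
  ext q
  · rfl
  · simp only [Equiv.Perm.mul_apply, sh_apply]
    ring

theorem sh_inv (a : ℤ) : (sh a)⁻¹ = sh (-a) := by
  rw [inv_eq_iff_mul_eq_one, sh_mul]
  ext q
  · rfl
  · simp [sh_apply]

theorem sh_pow (n : ℕ) : sh 1 ^ n = sh n := by
  induction n with
  | zero =>
    ext q
    · rfl
    · simp [sh_apply]
  | succ n ih =>
    rw [pow_succ, ih, sh_mul]
    push_cast
    rfl

/-- values of the letters -/
def val (pos : ν → ℤ) (N : ℤ) (X : Equiv.Perm (ℕ × ℤ)) : Option ν → Equiv.Perm (ℕ × ℤ)
  | none => sh 1
  | some i => sh (pos i * N) * X * sh (-(pos i * N))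

/-- number of letters different from `z` -/
def cc : List (Option ν × Bool) → ℕ
  | [] => 0
  | (none, _) :: L => cc L
  | (some _, _) :: L => cc L + 1

/-- exponent of the leading power of `z` -/
def zc : List (Option ν × Bool) → ℤ
  | [] => 0
  | (none, b) :: L => (if b then 1 else -1) + zc L
  | (some _, _) :: _ => 0

/-- first letter different from `z` -/
def fl : List (Option ν × Bool) → Option (ν × Bool)
  | [] => none
  | (none, _) :: L => fl L
  | (some i, b) :: _ => some (i, b)

theorem zc_abs (L : List (Option ν × Bool)) : |zc L| ≤ L.length := by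
  induction L with
  | nil => simp [zc]
  | cons a L ih =>
    obtain ⟨a, b⟩ := a
    cases a with
    | none =>
      simp only [zc, List.length_cons]
      push_cast
      have h1 : |(if b = true then (1 : ℤ) else -1)| ≤ 1 := by
        cases b <;> simp
      calc |(if b = true then (1 : ℤ) else -1) + zc L|
          ≤ |(if b = true then (1 : ℤ) else -1)| + |zc L| := abs_add_le _ _
        _ ≤ (L.length : ℤ) + 1 := by linarith
    | some i =>
      simp only [zc, abs_zero]
      positivity

theorem zc_sign (L : List (Option ν × Bool)) : ∀ b : Bool,
    FreeGroup.IsReduced ((none, b) :: L) →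
      (b = true → 0 < zc ((none, b) :: L)) ∧ (b = false → zc ((none, b) :: L) < 0) := by
  induction L with
  | nil =>
    intro b _
    cases b <;> simp [zc]
  | cons a L ih =>
    intro b hb
    obtain ⟨a, c⟩ := a
    cases a with
    | none =>
      obtain ⟨h1, h2⟩ := FreeGroup.isReduced_cons_cons.1 hb
      have h3 : b = c := h1 rfl
      subst h3
      obtain ⟨h4, h5⟩ := ih b h2
      rw [zc]
      constructor
      · intro hb
        have := h4 hb
        simp only [hb, if_true] at this ⊢
        linarith
      · intro hb
        have := h5 hb
        simp only [hb, Bool.false_eq_true, if_false] at this ⊢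
        linarith
    | some i =>
      cases b <;> simp [zc]

theorem zc_zero (L : List (Option ν × Bool)) (hL : FreeGroup.IsReduced L) (h0 : zc L = 0) :
    L = [] ∨ ∃ i b L', L = (some i, b) :: L' := by
  cases L with
  | nil => exact Or.inl rfl
  | cons a L =>
    obtain ⟨a, b⟩ := a
    cases a with
    | none =>
      exfalso
      obtain ⟨h4, h5⟩ := zc_sign L b hL
      cases b
      · have := h5 rfl
        omega
      · have := h4 rfl
        omega
    | some i => exact Or.inr ⟨i, b, L, rfl⟩

theorem red_tail {a : Option ν × Bool} {L : List (Option ν × Bool)}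
    (h : FreeGroup.IsReduced (a :: L)) : FreeGroup.IsReduced L := by
  cases L with
  | nil => exact FreeGroup.IsReduced.nil
  | cons b L => exact (FreeGroup.isReduced_cons_cons.1 h).2

/-- if the next letter `(some i, b)` meets the entrance point then the word is not reduced -/
theorem no_meet (pos : ν → ℤ) (hpos : Function.Injective pos) (N : ℤ)
    (L : List (Option ν × Bool)) (hN : (L.length : ℤ) < N) (i i' : ν) (b : Bool)
    (hred : FreeGroup.IsReduced ((some i, b) :: L))
    (hfl : fl L = some (i', !b))
    (heq : zc L + -(pos i * N) = -(pos i' * N)) : False := by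
  have h1 : zc L = (pos i - pos i') * N := by linarith
  have h2 : |zc L| < N := lt_of_le_of_lt (zc_abs L) hN
  have hNpos : 0 < N := lt_of_le_of_lt (by positivity) hN
  have h3 : pos i - pos i' = 0 := by
    by_contra hne
    have h4 : 1 ≤ |pos i - pos i'| := Int.one_le_abs hne
    rw [h1, abs_mul, abs_of_pos hNpos] at h2
    nlinarith
  have h5 : i = i' := hpos (by linarith)
  subst h5
  have h6 : zc L = 0 := by rw [h1, h3, zero_mul]
  have hredL : FreeGroup.IsReduced L := red_tail hred
  rcases zc_zero L hredL h6 with h | ⟨j, c, L', h⟩
  · rw [h] at hfl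
    simp [fl] at hfl
  · rw [h] at hfl hred
    simp only [fl, Option.some.injEq, Prod.mk.injEq] at hfl
    obtain ⟨h7, h8⟩ := hfl
    subst h7
    have h9 := (FreeGroup.isReduced_cons_cons.1 hred).1 rfl
    simp only at h9
    rw [h9] at h8
    cases c <;> simp at h8

theorem build2 (pos : ν → ℤ) (hpos : Function.Injective pos) (N : ℤ)
    (L : List (Option ν × Bool)) (hred : FreeGroup.IsReduced L) (hN : (L.length : ℤ) < N) :
    ∃ (X : Equiv.Perm (ℕ × ℤ)) (E : Finset ((ℕ × ℤ) × (ℕ × ℤ))),
      (∀ e ∈ E, X e.1 = e.2) ∧
      (∀ e ∈ E, e.1.1 ≤ cc L ∧ e.2.1 ≤ cc L) ∧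
      (∀ e ∈ E, e.1.1 = cc L → ∃ i, fl L = some (i, false) ∧ e.1.2 = -(pos i * N)) ∧
      (∀ e ∈ E, e.2.1 = cc L → ∃ i, fl L = some (i, true) ∧ e.2.2 = -(pos i * N)) ∧
      (∀ X' : Equiv.Perm (ℕ × ℤ), (∀ e ∈ E, X' e.1 = e.2) →
        ev (val pos N X') L (0, 0) = (cc L, zc L)) := by
  classical
  induction L with
  | nil =>
    refine ⟨1, ∅, ?_, ?_, ?_, ?_, ?_⟩
    · intro e he
      simp at he
    · intro e he
      simp at he
    · intro e he
      simp at he
    · intro e he
      simp at he
    · intro X' _
      simp [ev, cc, zc]
  | cons a L ih =>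
    have hN' : (L.length : ℤ) < N := by
      simp only [List.length_cons] at hN
      push_cast at hN
      linarith
    have hredL : FreeGroup.IsReduced L := red_tail hred
    obtain ⟨X, E, hX, hcol, hin, hout, hev⟩ := ih hredL hN'
    obtain ⟨a, b⟩ := a
    cases a with
    | none =>
      refine ⟨X, E, hX, hcol, hin, hout, ?_⟩
      intro X' hX'
      rw [ev, Equiv.Perm.mul_apply, hev X' hX']
      cases b
      · simp only [sv, val, sh_inv, sh_apply, zc, cc, Bool.false_eq_true, if_false]
        rw [add_comm]
      · simp only [sv, val, sh_apply, zc, cc, if_true]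
        rw [add_comm]
    | some i =>
      cases b with
      | true =>
        let q : ℕ × ℤ := (cc L, zc L + -(pos i * N))
        let r : ℕ × ℤ := (cc L + 1, -(pos i * N))
        have hq : ∀ e ∈ E, e.1 ≠ q := by
          intro e he heq
          obtain ⟨i', h1, h2⟩ := hin e he (by rw [heq])
          rw [heq] at h2
          exact no_meet pos hpos N L hN' i i' true hred h1 h2
        have hr : ∀ e ∈ E, e.2 ≠ r := by
          intro e he heq
          have := (hcol e he).2
          rw [heq] at this
          simp [r] at this
        have hr' : ∀ e ∈ E, e.1 ≠ r := by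
          intro e he heq
          have := (hcol e he).1
          rw [heq] at this
          simp [r] at this
        let X2 : Equiv.Perm (ℕ × ℤ) := Equiv.swap (X q) r * X
        have hX2 : ∀ e ∈ E, X2 e.1 = e.2 := by
          intro e he
          simp only [X2, Equiv.Perm.mul_apply, hX e he]
          refine Equiv.swap_apply_of_ne_of_ne ?_ (hr e he)
          intro h
          rw [← hX e he] at h
          exact hq e he (X.injective h)
        refine ⟨X2, insert (q, r) E, ?_, ?_, ?_, ?_, ?_⟩
        · intro e he
          rcases Finset.mem_insert.1 he with h | h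
          · subst h
            simp [X2]
          · exact hX2 e h
        · intro e he
          rcases Finset.mem_insert.1 he with h | h
          · subst h
            simp [q, r, cc]
          · have := hcol e h
            simp only [cc]
            omega
        · intro e he hc
          exfalso
          simp only [cc] at hc
          rcases Finset.mem_insert.1 he with h | h
          · subst h
            simp [q] at hc
          · have := (hcol e h).1
            omega
        · intro e he hc
          simp only [cc] at hc
          rcases Finset.mem_insert.1 he with h | h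
          · subst h
            exact ⟨i, rfl, rfl⟩
          · have := (hcol e h).2
            omega
        · intro X' hX'
          rw [ev, Equiv.Perm.mul_apply, hev X' (fun e he => hX' e (Finset.mem_insert_of_mem he))]
          have h1 : X' q = r := hX' (q, r) (Finset.mem_insert_self _ _)
          simp only [sv, val, if_true, Equiv.Perm.mul_apply]
          rw [sh_apply (-(pos i * N))]
          change sh (pos i * N) (X' q) = _
          rw [h1, sh_apply]
          simp [r, cc, zc]
      | false =>
        let q : ℕ × ℤ := (cc L, zc L + -(pos i * N))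
        let r : ℕ × ℤ := (cc L + 1, -(pos i * N))
        have hq : ∀ e ∈ E, e.2 ≠ q := by
          intro e he heq
          obtain ⟨i', h1, h2⟩ := hout e he (by rw [heq])
          rw [heq] at h2
          exact no_meet pos hpos N L hN' i i' false hred h1 h2
        have hr : ∀ e ∈ E, e.1 ≠ r := by
          intro e he heq
          have := (hcol e he).1
          rw [heq] at this
          simp [r] at this
        let X2 : Equiv.Perm (ℕ × ℤ) := X * Equiv.swap (X⁻¹ q) r
        have hX2 : ∀ e ∈ E, X2 e.1 = e.2 := by
          intro e he
          simp only [X2, Equiv.Perm.mul_apply]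
          rw [Equiv.swap_apply_of_ne_of_ne _ (hr e he), hX e he]
          intro h
          have h2 := hX e he
          have h3 : X (X⁻¹ q) = q := by simp
          rw [h, h3] at h2
          exact hq e he h2.symm
        refine ⟨X2, insert (r, q) E, ?_, ?_, ?_, ?_, ?_⟩
        · intro e he
          rcases Finset.mem_insert.1 he with h | h
          · subst h
            simp [X2]
          · exact hX2 e h
        · intro e he
          rcases Finset.mem_insert.1 he with h | h
          · subst h
            simp [q, r, cc]
          · have := hcol e h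
            simp only [cc]
            omega
        · intro e he hc
          simp only [cc] at hc
          rcases Finset.mem_insert.1 he with h | h
          · subst h
            exact ⟨i, rfl, rfl⟩
          · have := (hcol e h).1
            omega
        · intro e he hc
          exfalso
          simp only [cc] at hc
          rcases Finset.mem_insert.1 he with h | h
          · subst h
            simp [q] at hc
          · have := (hcol e h).2
            omega
        · intro X' hX'
          rw [ev, Equiv.Perm.mul_apply, hev X' (fun e he => hX' e (Finset.mem_insert_of_mem he))]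
          have h1 : X' r = q := hX' (r, q) (Finset.mem_insert_self _ _)
          have h2 : X'⁻¹ q = r := by
            rw [← h1]
            simp
          simp only [sv, val, Bool.false_eq_true, if_false, mul_inv_rev, sh_inv,
            Equiv.Perm.mul_apply]
          rw [sh_apply (-(pos i * N))]
          change sh (- -(pos i * N)) (X'⁻¹ q) = _
          rw [h2, sh_apply]
          simp [r, cc, zc]

/-- The nontriviality lemma. -/
theorem model (pos : ν → ℤ) (hpos : Function.Injective pos) (w : FreeGroup (Option ν))
    (hw : w ≠ 1) : ∃ (N : ℕ) (X : Equiv.Perm (ℕ × ℤ)),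
      FreeGroup.lift (val pos N X) w ≠ 1 := by
  classical
  refine ⟨w.toWord.length + 1, ?_⟩
  obtain ⟨X, E, hX, -, -, -, hev⟩ := build2 pos hpos ((w.toWord.length + 1 : ℕ) : ℤ) w.toWord
    FreeGroup.isReduced_toWord (by push_cast; linarith)
  refine ⟨X, fun h => ?_⟩
  have h1 := hev X hX
  rw [ev_eq, FreeGroup.mk_toWord, h, Equiv.Perm.one_apply] at h1
  have h2 : cc w.toWord = 0 := (congrArg Prod.fst h1).symm
  have h3 : zc w.toWord = 0 := (congrArg Prod.snd h1).symm
  rcases zc_zero _ FreeGroup.isReduced_toWord h3 with h4 | ⟨i, b, L', h4⟩
  · exact hw (FreeGroup.toWord_eq_nil_iff.1 h4)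
  · rw [h4] at h2
    simp [cc] at h2

end Pool.Agent.MP76001c
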